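import Mathlib

namespace Pool.Agent.Results.MP_68eddd_an.Cex

open Set MeasureTheory

/-- A branch: the interval `[l, r]` and the matrix entries `a, b, c, d`. -/
structure Br where
  l : ℝ
  r : ℝ
  a : ℝ
  b : ℝ
  c : ℝ
  d : ℝ

/-- The interval of a branch. -/
def Br.I (M : Br) : Set ℝ := Icc M.l M.r

/-- The Mobius map of a branch. -/
noncomputable def Br.T (M : Br) (x : ℝ) : ℝ := (M.a * x + M.b) / (M.c * x + M.d)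

/-- The planar extension of a branch. -/
noncomputable def Br.Tt (M : Br) (z : ℝ × ℝ) : ℝ × ℝ :=
  (M.T z.1, (M.c * z.1 + M.d) ^ 2 * z.2 - M.c * (M.c * z.1 + M.d))

/-- The standing assumptions on the family of branches over `[u, v]`. -/
def Good {A : Type} (u v : ℝ) (M : A → Br) : Prop :=
  u < v ∧ (∀ i, (M i).l < (M i).r) ∧ (⋃ i, (M i).I) = Icc u v ∧
  (∀ i j, i ≠ j → volume ((M i).I ∩ (M j).I) = 0) ∧
  (∀ i, (M i).a * (M i).d - (M i).b * (M i).c = 1 ∧ 0 ≤ (M i).c) ∧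
  (∀ i, ∀ x ∈ (M i).I, (M i).c * x + (M i).d ≠ 0 ∧ (M i).T x ∈ Icc u v) ∧
  (⋃ i, (M i).T '' (M i).I) = Icc u v ∧
  (∃ k < (1 : ℝ), ∀ i, ∀ x ∈ (M i).I, ((M i).c * x + (M i).d) ^ 2 ≤ k) ∧
  (∃ C : ℝ, ∀ i, ∀ x ∈ (M i).I, |(M i).c * ((M i).c * x + (M i).d)| ≤ C)

/-- The image of `K` under the piecewise planar map. -/
def img {A : Type} (M : A → Br) (K : Set (ℝ × ℝ)) : Set (ℝ × ℝ) :=
  ⋃ i, (M i).Tt '' (K ∩ (M i).I ×ˢ univ)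

/-- `K` is the compact attractor projecting onto `[u, v]`. -/
def Attr {A : Type} (u v : ℝ) (M : A → Br) (K : Set (ℝ × ℝ)) : Prop :=
  IsCompact K ∧ Prod.fst '' K = Icc u v ∧ K = closure (img M K)

/-- Two steps of the map send every branch interval onto `[u, v]`. -/
def Onto2 {A : Type} (u v : ℝ) (M : A → Br) : Prop :=
  ∀ i, ∀ y ∈ Icc u v, ∃ x ∈ (M i).I, ∃ j, (M i).T x ∈ (M j).I ∧ (M j).T ((M i).T x) = y

noncomputable def M1 : Br := ⟨-1, -2/5, -4/3, -8/15, 1/12, -43/60⟩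
noncomputable def M2 : Br := ⟨-2/5, 0, 5/3, 2/3, 1/6, 2/3⟩
noncomputable def M3 : Br := ⟨0, 2/5, -5/3, 2/3, 1/6, -2/3⟩
noncomputable def M4 : Br := ⟨2/5, 1, 4/3, -8/15, 1/12, 43/60⟩
noncomputable def MM : Fin 4 → Br := ![M1, M2, M3, M4]

noncomputable def Φ (p : ℝ × ℝ) : ℝ × ℝ := (p.1, 1 / (p.1 - p.2))

lemma conj (M : Br) (h : M.a * M.d - M.b * M.c = 1) {x w : ℝ} (hx : M.c * x + M.d ≠ 0)
    (hw : M.c * w + M.d ≠ 0) (hxw : x - w ≠ 0) : M.Tt (Φ (x, w)) = Φ (M.T x, M.T w) := by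
  have e : M.T x - M.T w = (x - w) / ((M.c * x + M.d) * (M.c * w + M.d)) := by
    unfold Br.T
    rw [div_sub_div _ _ hx hw]
    congr 1
    linear_combination (x - w) * h
  unfold Br.Tt Φ
  simp only [e]
  refine Prod.ext rfl ?_
  simp only
  field_simp
  ring

noncomputable def Br.S (M : Br) (y : ℝ) : ℝ := (M.d * y - M.b) / (M.a - M.c * y)

lemma TS (M : Br) (h : M.a * M.d - M.b * M.c = 1) {y : ℝ} (hy : M.a - M.c * y ≠ 0) :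
    M.T (M.S y) = y := by
  have e0 : M.S y * (M.a - M.c * y) = M.d * y - M.b := by
    unfold Br.S; exact div_mul_cancel₀ _ hy
  have e : M.c * M.S y + M.d = 1 / (M.a - M.c * y) := by
    rw [eq_div_iff hy]; linear_combination h + M.c * e0
  have e2 : M.a * M.S y + M.b = y / (M.a - M.c * y) := by
    rw [eq_div_iff hy]; linear_combination y * h + M.a * e0
  unfold Br.T
  rw [e, e2, div_div_div_cancel_right₀ hy, div_one]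

lemma inP {p q lo hi : ℝ} (hq : 0 < q) (h1 : lo * q ≤ p) (h2 : p ≤ hi * q) : p / q ∈ Icc lo hi :=
  ⟨(le_div_iff₀ hq).2 h1, (div_le_iff₀ hq).2 h2⟩

lemma inN {p q lo hi : ℝ} (hq : q < 0) (h1 : p ≤ lo * q) (h2 : hi * q ≤ p) : p / q ∈ Icc lo hi :=
  ⟨(le_div_iff_of_neg hq).2 h1, (div_le_iff_of_neg hq).2 h2⟩

def A : Set ℝ := Icc (-1) 0
def B : Set ℝ := Icc 0 1
noncomputable def WA : Set ℝ := Icc (-25) (-32/5)
noncomputable def WB : Set ℝ := Icc (32/5) 25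
noncomputable def KK : Set (ℝ × ℝ) := Φ '' (A ×ˢ WA) ∪ Φ '' (B ×ˢ WB)

lemma d1 : M1.a * M1.d - M1.b * M1.c = 1 := by simp only [M1]; norm_num
lemma d2 : M2.a * M2.d - M2.b * M2.c = 1 := by simp only [M2]; norm_num
lemma d3 : M3.a * M3.d - M3.b * M3.c = 1 := by simp only [M3]; norm_num
lemma d4 : M4.a * M4.d - M4.b * M4.c = 1 := by simp only [M4]; norm_num

lemma t1 {x : ℝ} (h : x ∈ M1.I) : M1.c * x + M1.d ≠ 0 ∧ M1.T x ∈ A := by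
  obtain ⟨h1, h2⟩ := h
  simp only [M1] at h1 h2
  refine ⟨by simp only [M1]; linarith, inN ?_ ?_ ?_⟩ <;> simp only [M1] <;> linarith
lemma t2 {x : ℝ} (h : x ∈ M2.I) : M2.c * x + M2.d ≠ 0 ∧ M2.T x ∈ B := by
  obtain ⟨h1, h2⟩ := h
  simp only [M2] at h1 h2
  refine ⟨by simp only [M2]; linarith, inP ?_ ?_ ?_⟩ <;> simp only [M2] <;> linarith
lemma t3 {x : ℝ} (h : x ∈ M3.I) : M3.c * x + M3.d ≠ 0 ∧ M3.T x ∈ A := by
  obtain ⟨h1, h2⟩ := h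
  simp only [M3] at h1 h2
  refine ⟨by simp only [M3]; linarith, inN ?_ ?_ ?_⟩ <;> simp only [M3] <;> linarith
lemma t4 {x : ℝ} (h : x ∈ M4.I) : M4.c * x + M4.d ≠ 0 ∧ M4.T x ∈ B := by
  obtain ⟨h1, h2⟩ := h
  simp only [M4] at h1 h2
  refine ⟨by simp only [M4]; linarith, inP ?_ ?_ ?_⟩ <;> simp only [M4] <;> linarith

lemma s1 {y : ℝ} (h : y ∈ A) : M1.S y ∈ M1.I ∧ M1.T (M1.S y) = y := by
  obtain ⟨h1, h2⟩ := h
  refine ⟨inN ?_ ?_ ?_, TS _ d1 (ne_of_lt ?_)⟩ <;> simp only [M1] <;> linarith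
lemma s2 {y : ℝ} (h : y ∈ B) : M2.S y ∈ M2.I ∧ M2.T (M2.S y) = y := by
  obtain ⟨h1, h2⟩ := h
  refine ⟨inP ?_ ?_ ?_, TS _ d2 (ne_of_gt ?_)⟩ <;> simp only [M2] <;> linarith
lemma s3 {y : ℝ} (h : y ∈ A) : M3.S y ∈ M3.I ∧ M3.T (M3.S y) = y := by
  obtain ⟨h1, h2⟩ := h
  refine ⟨inN ?_ ?_ ?_, TS _ d3 (ne_of_lt ?_)⟩ <;> simp only [M3] <;> linarith
lemma s4 {y : ℝ} (h : y ∈ B) : M4.S y ∈ M4.I ∧ M4.T (M4.S y) = y := by
  obtain ⟨h1, h2⟩ := h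
  refine ⟨inP ?_ ?_ ?_, TS _ d4 (ne_of_gt ?_)⟩ <;> simp only [M4] <;> linarith

lemma w1 {w : ℝ} (h : w ∈ WA) : M1.c * w + M1.d ≠ 0 ∧ M1.T w ∈ WA := by
  obtain ⟨h1, h2⟩ := h
  refine ⟨ne_of_lt ?_, inN ?_ ?_ ?_⟩ <;> simp only [M1] <;> linarith
lemma w2 {w : ℝ} (h : w ∈ WA ∨ w ∈ WB) : M2.c * w + M2.d ≠ 0 ∧ M2.T w ∈ WB := by
  rcases h with ⟨h1, h2⟩ | ⟨h1, h2⟩
  · refine ⟨ne_of_lt ?_, inN ?_ ?_ ?_⟩ <;> simp only [M2] <;> linarith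
  · refine ⟨ne_of_gt ?_, inP ?_ ?_ ?_⟩ <;> simp only [M2] <;> linarith
lemma w3 {w : ℝ} (h : w ∈ WA ∨ w ∈ WB) : M3.c * w + M3.d ≠ 0 ∧ M3.T w ∈ WA := by
  rcases h with ⟨h1, h2⟩ | ⟨h1, h2⟩
  · refine ⟨ne_of_lt ?_, inN ?_ ?_ ?_⟩ <;> simp only [M3] <;> linarith
  · refine ⟨ne_of_gt ?_, inP ?_ ?_ ?_⟩ <;> simp only [M3] <;> linarith
lemma w4 {w : ℝ} (h : w ∈ WB) : M4.c * w + M4.d ≠ 0 ∧ M4.T w ∈ WB := by
  obtain ⟨h1, h2⟩ := h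
  refine ⟨ne_of_gt ?_, inP ?_ ?_ ?_⟩ <;> simp only [M4] <;> linarith

lemma v1 {w : ℝ} (h1 : -82/7 ≤ w) (h2 : w ≤ -32/5) : M1.S w ∈ WA ∧ M1.T (M1.S w) = w := by
  refine ⟨inN ?_ ?_ ?_, TS _ d1 (ne_of_lt ?_)⟩ <;> simp only [M1] <;> linarith
lemma v3 {w : ℝ} (h1 : -25 ≤ w) (h2 : w ≤ -82/7) : M3.S w ∈ WB ∧ M3.T (M3.S w) = w := by
  refine ⟨inP ?_ ?_ ?_, TS _ d3 (ne_of_gt ?_)⟩ <;> simp only [M3] <;> linarith
lemma v4 {w : ℝ} (h1 : 32/5 ≤ w) (h2 : w ≤ 82/7) : M4.S w ∈ WB ∧ M4.T (M4.S w) = w := by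
  refine ⟨inP ?_ ?_ ?_, TS _ d4 (ne_of_gt ?_)⟩ <;> simp only [M4] <;> linarith
lemma v2 {w : ℝ} (h1 : 82/7 ≤ w) (h2 : w ≤ 25) : M2.S w ∈ WA ∧ M2.T (M2.S w) = w := by
  refine ⟨inN ?_ ?_ ?_, TS _ d2 (ne_of_lt ?_)⟩ <;> simp only [M2] <;> linarith

lemma neA {x w : ℝ} (hx : x ∈ A) (hw : w ∈ WA) : x - w ≠ 0 := by
  obtain ⟨h1, h2⟩ := hx; obtain ⟨h3, h4⟩ := hw; exact ne_of_gt (by linarith)
lemma neB {x w : ℝ} (hx : x ∈ B) (hw : w ∈ WB) : x - w ≠ 0 := by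
  obtain ⟨h1, h2⟩ := hx; obtain ⟨h3, h4⟩ := hw; exact ne_of_lt (by linarith)

lemma mem_img {z : ℝ × ℝ} {K : Set (ℝ × ℝ)} : z ∈ img MM K ↔
    (∃ p ∈ K, p.1 ∈ M1.I ∧ M1.Tt p = z) ∨ (∃ p ∈ K, p.1 ∈ M2.I ∧ M2.Tt p = z) ∨
    (∃ p ∈ K, p.1 ∈ M3.I ∧ M3.Tt p = z) ∨ (∃ p ∈ K, p.1 ∈ M4.I ∧ M4.Tt p = z) := by
  simp [img, MM, Fin.exists_fin_succ, and_assoc]

lemma I1A {x : ℝ} (h : x ∈ M1.I) : x ∈ A := by
  obtain ⟨h1, h2⟩ := h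
  simp only [M1] at h1 h2
  exact ⟨by linarith, by linarith⟩
lemma I2A {x : ℝ} (h : x ∈ M2.I) : x ∈ A := by
  obtain ⟨h1, h2⟩ := h
  simp only [M2] at h1 h2
  exact ⟨by linarith, by linarith⟩
lemma I3B {x : ℝ} (h : x ∈ M3.I) : x ∈ B := by
  obtain ⟨h1, h2⟩ := h
  simp only [M3] at h1 h2
  exact ⟨by linarith, by linarith⟩
lemma I4B {x : ℝ} (h : x ∈ M4.I) : x ∈ B := by
  obtain ⟨h1, h2⟩ := h
  simp only [M4] at h1 h2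
  exact ⟨by linarith, by linarith⟩

lemma img_eq : img MM KK = KK := by
  ext z
  rw [mem_img]
  constructor
  · rintro (⟨p, hp, hI, rfl⟩ | ⟨p, hp, hI, rfl⟩ | ⟨p, hp, hI, rfl⟩ | ⟨p, hp, hI, rfl⟩) <;>
      rcases hp with ⟨⟨x, w⟩, ⟨hx, hw⟩, rfl⟩ | ⟨⟨x, w⟩, ⟨hx, hw⟩, rfl⟩
    · rw [conj (x := x) (w := w) _ d1 (t1 hI).1 (w1 hw).1 (neA hx hw)]
      exact Or.inl ⟨_, ⟨(t1 hI).2, (w1 hw).2⟩, rfl⟩
    · exfalso
      have h1 := hI.2; have h2 := hx.1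
      simp only [M1, Φ] at h1 h2; linarith
    · rw [conj (x := x) (w := w) _ d2 (t2 hI).1 (w2 (Or.inl hw)).1 (neA hx hw)]
      exact Or.inr ⟨_, ⟨(t2 hI).2, (w2 (Or.inl hw)).2⟩, rfl⟩
    · rw [conj (x := x) (w := w) _ d2 (t2 hI).1 (w2 (Or.inr hw)).1 (neB hx hw)]
      exact Or.inr ⟨_, ⟨(t2 hI).2, (w2 (Or.inr hw)).2⟩, rfl⟩
    · rw [conj (x := x) (w := w) _ d3 (t3 hI).1 (w3 (Or.inl hw)).1 (neA hx hw)]
      exact Or.inl ⟨_, ⟨(t3 hI).2, (w3 (Or.inl hw)).2⟩, rfl⟩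
    · rw [conj (x := x) (w := w) _ d3 (t3 hI).1 (w3 (Or.inr hw)).1 (neB hx hw)]
      exact Or.inl ⟨_, ⟨(t3 hI).2, (w3 (Or.inr hw)).2⟩, rfl⟩
    · exfalso
      have h1 := hI.1; have h2 := hx.2
      simp only [M4, Φ] at h1 h2; linarith
    · rw [conj (x := x) (w := w) _ d4 (t4 hI).1 (w4 hw).1 (neB hx hw)]
      exact Or.inr ⟨_, ⟨(t4 hI).2, (w4 hw).2⟩, rfl⟩
  · rintro (⟨⟨x, w⟩, ⟨hx, hw⟩, rfl⟩ | ⟨⟨x, w⟩, ⟨hx, hw⟩, rfl⟩)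
    · rcases le_total w (-82/7) with h | h
      · have a := s3 hx; have b := v3 hw.1 h
        refine Or.inr (Or.inr (Or.inl ⟨Φ (M3.S x, M3.S w), Or.inr ⟨_, ⟨I3B a.1, b.1⟩, rfl⟩, a.1, ?_⟩))
        rw [conj _ d3 (t3 a.1).1 (w3 (Or.inr b.1)).1 (neB (I3B a.1) b.1), a.2, b.2]
      · have a := s1 hx; have b := v1 h hw.2
        refine Or.inl ⟨Φ (M1.S x, M1.S w), Or.inl ⟨_, ⟨I1A a.1, b.1⟩, rfl⟩, a.1, ?_⟩
        rw [conj _ d1 (t1 a.1).1 (w1 b.1).1 (neA (I1A a.1) b.1), a.2, b.2]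
    · rcases le_total w (82/7) with h | h
      · have a := s4 hx; have b := v4 hw.1 h
        refine Or.inr (Or.inr (Or.inr ⟨Φ (M4.S x, M4.S w), Or.inr ⟨_, ⟨I4B a.1, b.1⟩, rfl⟩, a.1, ?_⟩))
        rw [conj _ d4 (t4 a.1).1 (w4 b.1).1 (neB (I4B a.1) b.1), a.2, b.2]
      · have a := s2 hx; have b := v2 h hw.2
        refine Or.inr (Or.inl ⟨Φ (M2.S x, M2.S w), Or.inl ⟨_, ⟨I2A a.1, b.1⟩, rfl⟩, a.1, ?_⟩)
        rw [conj _ d2 (t2 a.1).1 (w2 (Or.inl b.1)).1 (neA (I2A a.1) b.1), a.2, b.2]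

lemma contΦ {S : Set (ℝ × ℝ)} (h : ∀ p ∈ S, p.1 - p.2 ≠ 0) : ContinuousOn Φ S :=
  continuous_fst.continuousOn.prodMk
    (continuousOn_const.div (continuous_fst.sub continuous_snd).continuousOn h)

lemma compact : IsCompact KK :=
  ((isCompact_Icc.prod isCompact_Icc).image_of_continuousOn
    (contΦ fun _ hp => neA hp.1 hp.2)).union
  ((isCompact_Icc.prod isCompact_Icc).image_of_continuousOn (contΦ fun _ hp => neB hp.1 hp.2))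

lemma AB {x : ℝ} : x ∈ Icc (-1 : ℝ) 1 ↔ x ∈ A ∨ x ∈ B := by
  simp only [A, B, mem_Icc]
  constructor
  · rintro ⟨h1, h2⟩
    rcases le_total x 0 with h | h
    · exact Or.inl ⟨h1, h⟩
    · exact Or.inr ⟨h, h2⟩
  · rintro (⟨h1, h2⟩ | ⟨h1, h2⟩) <;> constructor <;> linarith

lemma attr : Attr (-1) 1 MM KK := by
  refine ⟨compact, ?_, by rw [img_eq, compact.isClosed.closure_eq]⟩
  ext x
  rw [AB]
  constructor
  · rintro ⟨_, ⟨p, hp, rfl⟩ | ⟨p, hp, rfl⟩, rfl⟩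
    · exact Or.inl hp.1
    · exact Or.inr hp.1
  · rintro (h | h)
    · exact ⟨_, Or.inl ⟨(x, -25), ⟨h, le_rfl, by norm_num⟩, rfl⟩, rfl⟩
    · exact ⟨_, Or.inr ⟨(x, 25), ⟨h, by norm_num, le_rfl⟩, rfl⟩, rfl⟩

lemma pos : 0 < volume KK := by
  have hs : Ioo (-1 : ℝ) 0 ×ˢ Ioo (1/24 : ℝ) (1/7) ⊆ KK := by
    rintro ⟨x, y⟩ ⟨⟨h1, h2⟩, h3, h4⟩
    simp only at h1 h2 h3 h4
    have hy : 0 < y := by linarith
    have a : 1 / y ∈ Icc (7 : ℝ) 24 := inP hy (by linarith) (by linarith)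
    refine Or.inl ⟨(x, x - 1 / y), ⟨⟨h1.le, h2.le⟩, ?_, ?_⟩, ?_⟩
    · have := a.2; simp only; linarith
    · have := a.1; simp only; linarith
    · simp [Φ]
  refine lt_of_lt_of_le ?_ (measure_mono hs)
  exact (isOpen_Ioo.prod isOpen_Ioo).measure_pos _
    ⟨(-1/2, 1/10), ⟨by norm_num, by norm_num⟩, by norm_num, by norm_num⟩

lemma discon : ¬ IsConnected KK := by
  intro h
  have hu : IsOpen {z : ℝ × ℝ | 0 < z.2} := isOpen_lt continuous_const continuous_snd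
  have hv : IsOpen {z : ℝ × ℝ | z.2 < 0} := isOpen_lt continuous_snd continuous_const
  obtain ⟨z, -, h1, h2⟩ := h.2 _ _ hu hv (by
      rintro _ (⟨p, ⟨h1, h2⟩, rfl⟩ | ⟨p, ⟨h1, h2⟩, rfl⟩)
      · left
        have a := h1.1; have b := h2.2
        have c : 0 < p.1 - p.2 := by linarith
        exact one_div_pos.2 c
      · right
        have a := h1.2; have b := h2.1
        have c : p.1 - p.2 < 0 := by linarith
        exact one_div_neg.2 c)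
    ⟨Φ (0, -25), Or.inl ⟨_, ⟨⟨by norm_num, le_rfl⟩, le_rfl, by norm_num⟩, rfl⟩, by
      simp [Φ]⟩
    ⟨Φ (0, 25), Or.inr ⟨_, ⟨⟨le_rfl, by norm_num⟩, by norm_num, le_rfl⟩, rfl⟩, by
      simp [Φ]⟩
  exact lt_asymm (show 0 < z.2 from h1) (show z.2 < 0 from h2)

lemma all4 {P : Br → Prop} (h1 : P M1) (h2 : P M2) (h3 : P M3) (h4 : P M4) : ∀ i, P (MM i) := by
  intro i; fin_cases i <;> assumption

lemma AI {y : ℝ} (h : y ∈ A) : y ∈ Icc (-1 : ℝ) 1 := AB.2 (Or.inl h)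
lemma BI {y : ℝ} (h : y ∈ B) : y ∈ Icc (-1 : ℝ) 1 := AB.2 (Or.inr h)

lemma good : Good (-1) 1 MM := by
  refine ⟨by norm_num, all4 (P := fun M => M.l < M.r) ?_ ?_ ?_ ?_, ?_, ?_,
    all4 (P := fun M => M.a * M.d - M.b * M.c = 1 ∧ 0 ≤ M.c) ⟨d1, ?_⟩ ⟨d2, ?_⟩ ⟨d3, ?_⟩ ⟨d4, ?_⟩,
    all4 (P := fun M => ∀ x ∈ M.I, M.c * x + M.d ≠ 0 ∧ M.T x ∈ Icc (-1) 1)
      (fun _ h => ⟨(t1 h).1, AI (t1 h).2⟩) (fun _ h => ⟨(t2 h).1, BI (t2 h).2⟩)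
      (fun _ h => ⟨(t3 h).1, AI (t3 h).2⟩) (fun _ h => ⟨(t4 h).1, BI (t4 h).2⟩), ?_,
    ⟨16/25, by norm_num, all4 (P := fun M => ∀ x ∈ M.I, (M.c * x + M.d) ^ 2 ≤ 16/25) ?_ ?_ ?_ ?_⟩,
    ⟨1, all4 (P := fun M => ∀ x ∈ M.I, |M.c * (M.c * x + M.d)| ≤ 1) ?_ ?_ ?_ ?_⟩⟩
  · simp only [M1]; norm_num
  · simp only [M2]; norm_num
  · simp only [M3]; norm_num
  · simp only [M4]; norm_num
  · ext x
    simp only [mem_iUnion]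
    constructor
    · rintro ⟨i, hi⟩
      exact all4 (P := fun M => x ∈ M.I → x ∈ Icc (-1 : ℝ) 1) (fun h => AI (I1A h))
        (fun h => AI (I2A h)) (fun h => BI (I3B h)) (fun h => BI (I4B h)) i hi
    · rintro ⟨h1, h2⟩
      rcases le_total x (-2/5) with a | a
      · exact ⟨0, h1, a⟩
      rcases le_total x 0 with b | b
      · exact ⟨1, a, b⟩
      rcases le_total x (2/5) with c | c
      · exact ⟨2, b, c⟩
      · exact ⟨3, c, h2⟩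
  · intro i j hij
    fin_cases i <;> fin_cases j <;> first
      | exact absurd rfl hij
      | (simp only [MM, Br.I, M1, M2, M3, M4, Icc_inter_Icc, Real.volume_Icc]
         simp <;> norm_num)
  · simp only [M1]; norm_num
  · simp only [M2]; norm_num
  · simp only [M3]; norm_num
  · simp only [M4]; norm_num
  · ext y
    simp only [mem_iUnion]
    constructor
    · rintro ⟨i, x, hx, rfl⟩
      exact all4 (P := fun M => x ∈ M.I → M.T x ∈ Icc (-1 : ℝ) 1) (fun h => AI (t1 h).2)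
        (fun h => BI (t2 h).2) (fun h => AI (t3 h).2) (fun h => BI (t4 h).2) i hx
    · intro h
      rcases AB.1 h with h | h
      · exact ⟨0, _, (s1 h).1, (s1 h).2⟩
      · exact ⟨1, _, (s2 h).1, (s2 h).2⟩
  · rintro x ⟨h1, h2⟩; simp only [M1] at h1 h2 ⊢; nlinarith
  · rintro x ⟨h1, h2⟩; simp only [M2] at h1 h2 ⊢; nlinarith
  · rintro x ⟨h1, h2⟩; simp only [M3] at h1 h2 ⊢; nlinarith
  · rintro x ⟨h1, h2⟩; simp only [M4] at h1 h2 ⊢; nlinarith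
  · rintro x ⟨h1, h2⟩; simp only [M1] at h1 h2 ⊢; exact abs_le.2 ⟨by linarith, by linarith⟩
  · rintro x ⟨h1, h2⟩; simp only [M2] at h1 h2 ⊢; exact abs_le.2 ⟨by linarith, by linarith⟩
  · rintro x ⟨h1, h2⟩; simp only [M3] at h1 h2 ⊢; exact abs_le.2 ⟨by linarith, by linarith⟩
  · rintro x ⟨h1, h2⟩; simp only [M4] at h1 h2 ⊢; exact abs_le.2 ⟨by linarith, by linarith⟩

lemma ontoA (M : Br) (h : ∀ y ∈ A, M.S y ∈ M.I ∧ M.T (M.S y) = y) :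
    ∀ y ∈ Icc (-1 : ℝ) 1, ∃ x ∈ M.I, ∃ j, M.T x ∈ (MM j).I ∧ (MM j).T (M.T x) = y := by
  intro y hy
  rcases AB.1 hy with hy | hy
  · have a := s1 hy; have b := h _ (I1A a.1)
    exact ⟨_, b.1, 0, by rw [b.2]; exact a⟩
  · have a := s2 hy; have b := h _ (I2A a.1)
    exact ⟨_, b.1, 1, by rw [b.2]; exact a⟩

lemma ontoB (M : Br) (h : ∀ y ∈ B, M.S y ∈ M.I ∧ M.T (M.S y) = y) :
    ∀ y ∈ Icc (-1 : ℝ) 1, ∃ x ∈ M.I, ∃ j, M.T x ∈ (MM j).I ∧ (MM j).T (M.T x) = y := by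
  intro y hy
  rcases AB.1 hy with hy | hy
  · have a := s3 hy; have b := h _ (I3B a.1)
    exact ⟨_, b.1, 2, by rw [b.2]; exact a⟩
  · have a := s4 hy; have b := h _ (I4B a.1)
    exact ⟨_, b.1, 3, by rw [b.2]; exact a⟩

theorem result : ∃ (M : Fin 4 → Br) (K : Set (ℝ × ℝ)),
    Good (-1) 1 M ∧ Onto2 (-1) 1 M ∧ Attr (-1) 1 M K ∧ 0 < volume K ∧
      volume (K \ img M K) = 0 ∧ ¬ IsConnected K := by
  refine ⟨MM, KK, good, ?_, attr, pos, by rw [img_eq]; simp, discon⟩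
  exact all4 (P := fun M => ∀ y ∈ Icc (-1 : ℝ) 1, ∃ x ∈ M.I, ∃ j,
      M.T x ∈ (MM j).I ∧ (MM j).T (M.T x) = y)
    (ontoA _ fun _ => s1) (ontoB _ fun _ => s2) (ontoA _ fun _ => s3) (ontoB _ fun _ => s4)

end Pool.Agent.Results.MP_68eddd_an.Cex
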